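import Pool.Agent.Helper99.LN.Defs
import Pool.Agent.Helper10.L.LOC

/-!
# Project LN, block LOC: the local theorem, with the algebraic closure of Mathlib
-/

set_option autoImplicit false
set_option linter.unusedSectionVars false

namespace Pool.Agent.LN

open VC IntermediateField Pool.Agent.SC NumberField
open Pool.Agent.HG (Pr nm)
open Pool.Agent.L (Inert tO tA tB mem_tO val_lt_one_tO tA_apply symm_tA tB_apply tB_symm tB_mul
  tB_one tB_inv tB_pow isFrobAt_t)

section transport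

variable {k E E' : Type} [Field k] [NumberField k] [Field E] [Algebra k E] [Field E'] [Algebra k E']
  (e : E ≃ₐ[k] E')

theorem decPt_t {v : Pr k} {O : ValuationSubring E} {F : E ≃ₐ[k] E} {p f : ℕ}
    (h : DecPt v O F p f) : DecPt v (tO e O) (tA e F) p f := by
  refine ⟨?_, h.norm, isFrobAt_t e h.frob, ?_, ?_⟩
  · intro x
    rw [mem_tO, AlgEquiv.commutes]
    exact h.above x
  · intro n c hn hc d hd
    obtain ⟨τ, hτ, h1⟩ := h.ram n c hn hc (e.symm d) (by rw [← map_pow, hd, AlgEquiv.commutes])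
    refine ⟨tA e τ, hτ.tA' e, ?_⟩
    intro h2
    apply h1
    rw [← symm_tA, h2]
  · intro γ τ hγ hτ L hL m hm
    obtain ⟨a, j, h1, h2⟩ := h.tame (tB e γ) (tB e τ) (fun z => by
      rw [tB_apply, ← mem_tO e, hγ, mem_tO, AlgEquiv.symm_apply_apply]) (hτ.tB' e)
      (L.map (e.symm : E' →ₐ[k] E)) (by
        have h3 : FiniteDimensional k L := hL
        exact (L.equivMap (e.symm : E' →ₐ[k] E)).toLinearEquiv.finiteDimensional) m hm
    refine ⟨a, j, fun ζ hζ => ?_, fun z hz => ?_⟩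
    · have h3 := h1 (e.symm ζ) (by rw [← map_pow, hζ, map_one])
      rw [tB_symm, ← map_pow] at h3
      exact e.symm.injective h3
    · have h3 := h2 (e.symm z) ⟨z, hz, rfl⟩
      rw [← tB_pow, ← tB_inv, ← tB_inv, ← tB_mul, ← tB_mul, ← tB_mul, ← tB_pow, tB_symm] at h3
      exact e.symm.injective h3

theorem fixesBranch_t {K0 : Type} [Field K0] [Algebra k K0] {n : ℕ} {h : K0} {g : E ≃ₐ[k] E}
    (hg : FixesBranch n h g) : FixesBranch n h (tA e g) := by
  obtain ⟨P, φ, h1, h2, h3, h4⟩ := hg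
  refine ⟨P, (e : E →+* E').comp φ, h1, h2, fun a x hx => ?_, fun x => ?_⟩
  · change e (φ x) = _
    rw [h3 a x hx, AlgEquiv.commutes]
  · change tA e g (e (φ x)) = e (φ x)
    rw [tA_apply, AlgEquiv.symm_apply_apply, h4]

end transport

/-- **Block LOC.** -/
theorem stmtLOC (hTR : StmtTR) (hK5 : StmtK5) (hFR : StmtFR) : StmtLOC := by
  intro k K0 _ _ _ _ n h hn hgood
  obtain ⟨E, U, i1, i2, i3, i4, i5, i6, i7, i8, r, hgeo, hsec⟩ := hTR k K0 n h hn hgood
  obtain ⟨Bad, hBad, hmain⟩ := hK5 k K0 E U n h r hn hgeo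
  refine ⟨Bad, hBad, ?_⟩
  intro v hv c hc hodd hs
  have hac : IsAlgClosed E := hgeo.clE
  have halg : Algebra.IsAlgebraic k E := hgeo.algE
  obtain ⟨Φ, hΦ⟩ := hsec c hc hs
  obtain ⟨O, F, p, f, hD⟩ := hFR k E v
  have h1 := hmain v hv c hc hodd Φ hΦ O F p f hD
  have hcl : IsAlgClosure k E := ⟨hac, halg⟩
  let e : E ≃ₐ[k] AlgebraicClosure k := IsAlgClosure.equiv k E (AlgebraicClosure k)
  exact ⟨tO e O, tA e F, p, f, decPt_t e hD, fixesBranch_t e h1⟩

end Pool.Agent.LN
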