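import Pool.Agent.Helper79.L.FR

/-!
# The inertia field has the value group of the base field
-/

set_option autoImplicit false

namespace Pool.Agent.LN

open NumberField IsDedekindDomain
open Pool.Agent.HG (Pr nm)

noncomputable section

section

variable {k L : Type} [Field k] [NumberField k] [Field L] [NumberField L] [Algebra k L]

theorem ramIdx_eq_card [IsGalois k L] (v : Pr k) (P : Pr L)
    (hP : P.asIdeal.comap (algebraMap (𝓞 k) (𝓞 L)) = v.asIdeal) :
    v.asIdeal.ramificationIdx' P.asIdeal = Nat.card (P.asIdeal.inertia (L ≃ₐ[k] L)) := by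
  have hover : P.asIdeal.LiesOver v.asIdeal := ⟨hP.symm⟩
  have hvp : v.asIdeal.IsPrime := v.isPrime
  have hPp : P.asIdeal.IsPrime := P.isPrime
  have hvmax : v.asIdeal.IsMaximal := v.isMaximal
  have hfin : Finite (𝓞 k ⧸ v.asIdeal) := Ideal.finiteQuotientOfFreeOfNeBot _ v.ne_bot
  rw [Ideal.ramificationIdx'_eq_ramificationIdx v.asIdeal P.asIdeal v.ne_bot,
    ← Ideal.ramificationIdxIn_eq_ramificationIdx v.asIdeal P.asIdeal (L ≃ₐ[k] L),
    Ideal.card_inertia_eq_ramificationIdxIn v.asIdeal P.asIdeal]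

theorem exists_val_of_inertia [IsGalois k L] (v : Pr k) (P : Pr L)
    (hP : P.asIdeal.comap (algebraMap (𝓞 k) (𝓞 L)) = v.asIdeal) {d : L}
    (hd : ∀ σ : L ≃ₐ[k] L, (∀ a : 𝓞 L, σ • a - a ∈ P.asIdeal) → σ d = d) :
    ∃ z : k, P.valuation L (algebraMap k L z) = P.valuation L d := by
  classical
  let I : Subgroup (L ≃ₐ[k] L) := P.asIdeal.inertia (L ≃ₐ[k] L)
  let F : IntermediateField k L := IntermediateField.fixedField I
  have hNF : NumberField F := NumberField.of_module_finite k F
  have hgal : IsGalois F L := IsGalois.tower_top_of_isGalois k F L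
  have hPp : P.asIdeal.IsPrime := P.isPrime
  let PF : Pr F := ⟨P.asIdeal.comap (algebraMap (𝓞 F) (𝓞 L)), Ideal.comap_isPrime _ _, by
    intro h
    have h1 := Ideal.eq_bot_of_comap_eq_bot (R := 𝓞 F) h
    exact P.ne_bot h1⟩
  have hover : P.asIdeal.LiesOver v.asIdeal := ⟨hP.symm⟩
  have hoverF : P.asIdeal.LiesOver PF.asIdeal := ⟨rfl⟩
  have h1 := ramIdx_eq_card v P hP
  have h2 := ramIdx_eq_card PF P rfl
  have h3 : Nat.card (P.asIdeal.inertia (L ≃ₐ[F] L)) = Nat.card I := by
    have h4 : P.asIdeal.inertia (L ≃ₐ[F] L) = ⊤ := by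
      rw [eq_top_iff]
      intro σ _
      have h5 : σ.restrictScalars k ∈ I := by
        rw [← IntermediateField.fixingSubgroup_fixedField I]
        rw [IntermediateField.mem_fixingSubgroup_iff]
        intro x hx
        exact σ.commutes ⟨x, hx⟩
      intro a
      exact h5 a
    rw [h4]
    have h6 : Nat.card (⊤ : Subgroup (L ≃ₐ[F] L)) = Nat.card (L ≃ₐ[F] L) := Subgroup.card_top
    rw [h6]
    have h7 : Nat.card F.fixingSubgroup = Nat.card (L ≃ₐ[F] L) :=
      Nat.card_congr (IntermediateField.fixingSubgroupEquiv F).toEquiv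
    rw [← h7, IntermediateField.fixingSubgroup_fixedField I]
  have hdF : d ∈ F := by
    rw [IntermediateField.mem_fixedField_iff]
    intro σ hσ
    exact hd σ hσ
  obtain ⟨z, hz⟩ := v.valuation_surjective k (PF.valuation F ⟨d, hdF⟩)
  refine ⟨z, ?_⟩
  have h8 := v.valuation_liesOver L P z
  have h9 := PF.valuation_liesOver L P (⟨d, hdF⟩ : F)
  have h10 : algebraMap F L ⟨d, hdF⟩ = d := rfl
  rw [← h8, hz, h1]
  rw [h10, h2, h3] at h9
  exact h9

end

end

end Pool.Agent.LN
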