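import Pool.Agent.Helper99.LN.Defs
import Pool.Agent.Helper79.LN.Ram

/-!
# Project LN, block FR: Frobenius and inertia elements over a number field
-/

set_option autoImplicit false
set_option linter.unusedSectionVars false

universe u

namespace Pool.Agent.Helper91.Sect

open scoped Pointwise IntermediateField
open Polynomial

section Lift

variable {k C : Type u} [Field k] [Field C] [Algebra k C] [IsGalois k C]
  {O : ValuationSubring k} (Q : Ideal (integralClosure O C)) [hQ : Q.IsPrime]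

/-- An automorphism which acts on a normal subfield `L` like an inertia element agrees on `L` with an
inertia element. -/
theorem exists_inertia_lift (L : IntermediateField k C) [Normal k L] (σ0 : C ≃ₐ[k] C)
    (h : ∀ z ∈ L, z ∈ locW Q → (locW Q).valuation (σ0 z - z) < 1) :
    ∃ τ : C ≃ₐ[k] C, InI Q τ ∧ ∀ z ∈ L, τ z = σ0 z := by
  classical
  set H : Subgroup (C ≃ₐ[k] C) := L.fixingSubgroup with hHdef
  have hH : IsClosed (H : Set (C ≃ₐ[k] C)) := InfiniteGalois.fixingSubgroup_isClosed _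
  have hHL : ∀ σ ∈ H, ∀ z ∈ L, σ z = z := fun σ hσ z hz => by
    exact (mem_fixingSubgroup_iff (C ≃ₐ[k] C)).1 hσ z hz
  have hfixed : ∀ b : integralClosure O C, (∀ σ ∈ H, σ • b = b) → (b : C) ∈ L := by
    intro b hb
    rw [← InfiniteGalois.fixedField_fixingSubgroup L, IntermediateField.mem_fixedField_iff]
    intro σ hσ
    exact congrArg Subtype.val (hb σ hσ)
  have hcong : ∀ b : integralClosure O C, (∀ σ ∈ H, σ • b = b) → σ0 • b - b ∈ Q := by
    intro b hb
    rw [← val_coe_lt_one_iff Q]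
    exact h _ (hfixed b hb) (coe_mem_locW Q b)
  have hσL : ∀ z ∈ L, σ0 z ∈ L := by
    intro z hz
    exact (IntermediateField.normal_iff_forall_map_le.1 ‹Normal k L› (σ0 : C →ₐ[k] C))
      ⟨z, hz, rfl⟩
  let P : Ideal (integralClosure O C) :=
    Q.comap (MulSemiringAction.toRingHom (C ≃ₐ[k] C) (integralClosure O C) σ0)
  have hP : ∀ b, b ∈ P ↔ σ0 • b ∈ Q := fun b => Iff.rfl
  have hPprime : P.IsPrime := Ideal.comap_isPrime _ _
  obtain ⟨δ, hδH, hδ⟩ := exists_conj H hH P Q (by
    intro b hb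
    rw [hP]
    have h1 := hcong b hb
    constructor
    · intro h2
      have h3 := Q.sub_mem h2 h1
      rwa [sub_sub_cancel] at h3
    · intro h2
      have h3 := Q.add_mem h1 h2
      rwa [sub_add_cancel] at h3)
  set τ1 : C ≃ₐ[k] C := σ0 * δ⁻¹ with hτ1
  have hτ1D : InD Q τ1 := by
    intro b
    have h1 := hδ (δ⁻¹ • b)
    rw [smul_inv_smul, hP, ← mul_smul] at h1
    exact h1.symm
  -- the automorphism of the residue ring
  let e : integralClosure O C ≃+* integralClosure O C :=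
    MulSemiringAction.toRingEquiv (C ≃ₐ[k] C) (integralClosure O C) τ1
  let φ : (integralClosure O C ⧸ Q) ≃+* (integralClosure O C ⧸ Q) :=
    Ideal.quotientEquiv Q Q e (by
      ext b
      rw [Ideal.map_comap_of_equiv]
      change b ∈ Q ↔ τ1⁻¹ • b ∈ Q
      rw [hτ1D.inv b])
  have hφ : ∀ b, φ (Ideal.Quotient.mk Q b) = Ideal.Quotient.mk Q (τ1 • b) := fun b => rfl
  obtain ⟨ε, hεH, hεD, hε⟩ := exists_lift H hH Q φ (by
    intro b hb
    rw [hφ, Ideal.Quotient.eq]
    have h1 : τ1 • b = σ0 • b := by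
      rw [hτ1, mul_smul, hb _ (H.inv_mem hδH)]
    rw [h1]
    exact hcong b hb)
  refine ⟨ε⁻¹ * τ1, ⟨(InD.inv hεD).mul hτ1D, fun b => ?_⟩, ?_⟩
  · rw [← hεD, smul_sub, ← mul_smul, mul_inv_cancel_left, ← Ideal.Quotient.eq, hε b, hφ]
  · intro z hz
    rw [AlgEquiv.mul_apply, hτ1, AlgEquiv.mul_apply, hHL _ (H.inv_mem hδH) z hz,
      hHL _ (H.inv_mem hεH) _ (hσL z hz)]

end Lift

end Pool.Agent.Helper91.Sect

namespace Pool.Agent.LN

open VC IntermediateField NumberField IsDedekindDomain Pool.Agent.SC Pool.Agent.Helper91.Sect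
open Pool.Agent.HG (Pr nm)
open Pool.Agent.L (Inert FPair L0 MM SamePlace OverV cst locW_le_iff locW_lt_iff rank_locW
  inD_of_stab inI_of_inert inert_of_inI unit_of_coprime)

noncomputable section

section Below

variable {k E : Type} [Field k] [NumberField k] [Field E] [IsAlgClosed E] [Algebra k E]
  [IsGalois k E] [CharZero E] {v : Pr k} (Q : Ideal (integralClosure (Pool.Agent.HG.OV v) E))
  [hQ : Q.IsPrime]

theorem int_mem_locW {z : E} (hz : IsIntegral ℤ z) : z ∈ locW Q := by
  have h1 : IsIntegral (locW Q) z := hz.tower_top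
  obtain ⟨y, hy⟩ := IsIntegrallyClosed.isIntegral_iff.mp h1
  rw [← hy]
  exact y.2

/-- the prime of `L` below `Q` -/
theorem exists_below (hA : Above Q) {p : ℕ} (hp : p.Prime) (hpQ : (locW Q).valuation (p : E) < 1)
    (L : IntermediateField k E) [NumberField L] :
    ∃ P : Pr L, (∀ z : L, (locW Q).valuation (z : E) ≤ 1 ↔ P.valuation L z ≤ 1) ∧
      (∀ z : L, (locW Q).valuation (z : E) < 1 ↔ P.valuation L z < 1) ∧
      P.asIdeal.comap (algebraMap (𝓞 k) (𝓞 L)) = v.asIdeal := by
  have hint : ∀ a : 𝓞 L, ((a : L) : E) ∈ locW Q := by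
    intro a
    apply int_mem_locW
    have h1 : IsIntegral ℤ (a : L) := a.2
    exact h1.map (IsScalarTower.toAlgHom ℤ L E)
  let g : 𝓞 L →+* locW Q :=
    ((algebraMap L E).comp (algebraMap (𝓞 L) L)).codRestrict (locW Q).toSubring hint
  let I : Ideal (𝓞 L) := (IsLocalRing.maximalIdeal (locW Q)).comap g
  have hI : ∀ a : 𝓞 L, a ∈ I ↔ (locW Q).valuation ((a : L) : E) < 1 := by
    intro a
    have h1 : a ∈ I ↔ g a ∈ IsLocalRing.maximalIdeal (locW Q) := Iff.rfl
    rw [h1, (locW Q).valuation_lt_one_iff]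
    rfl
  have hIp : I.IsPrime := Ideal.comap_isPrime _ _
  have hI0 : I ≠ ⊥ := by
    intro h
    have h1 : (p : 𝓞 L) ∈ I := by
      rw [hI]
      push_cast
      exact hpQ
    rw [h, Ideal.mem_bot] at h1
    exact hp.ne_zero (by exact_mod_cast h1)
  let P : Pr L := ⟨I, hIp, hI0⟩
  have hPI : ∀ a : 𝓞 L, a ∈ P.asIdeal ↔ (locW Q).valuation ((a : L) : E) < 1 := hI
  have h1 : ∀ z : L, P.valuation L z ≤ 1 → (locW Q).valuation (z : E) ≤ 1 ∧
      (P.valuation L z < 1 → (locW Q).valuation (z : E) < 1) := by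
    intro z hz
    obtain ⟨a, b, hb, hab⟩ := Pool.Agent.HG.exists_frac P hz
    have hb1 : (locW Q).valuation ((b : L) : E) = 1 := by
      refine le_antisymm (((locW Q).valuation_le_one_iff _).2 (hint b)) ?_
      rw [hPI, not_lt] at hb
      exact hb
    have hab' : (z : E) * ((b : L) : E) = ((a : L) : E) := congrArg Subtype.val hab
    have h2 : (locW Q).valuation (z : E) = (locW Q).valuation ((a : L) : E) := by
      rw [← hab', map_mul, hb1, mul_one]
    refine ⟨?_, fun h3 => ?_⟩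
    · rw [h2]
      exact ((locW Q).valuation_le_one_iff _).2 (hint a)
    · rw [h2, ← hPI, ← Pool.Agent.HG.val_int_lt P a, ← hab, map_mul]
      have h4 : P.valuation L (b : L) = 1 := (Pool.Agent.HG.val_int_one P b).2 hb
      rw [h4, mul_one]
      exact h3
  have h2 : ∀ z : L, (locW Q).valuation (z : E) ≤ 1 → P.valuation L z ≤ 1 := by
    intro z hz
    by_contra h3
    rw [not_le] at h3
    have hz0 : z ≠ 0 := by
      rintro rfl
      rw [map_zero] at h3
      exact absurd h3 (not_lt.2 zero_le)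
    have h4 : P.valuation L z⁻¹ < 1 := by
      rw [map_inv₀]
      exact inv_lt_one_of_one_lt₀ h3
    have h5 := (h1 z⁻¹ h4.le).2 h4
    have h6 : ((z⁻¹ : L) : E) = (z : E)⁻¹ := rfl
    rw [h6, map_inv₀] at h5
    have h7 : (locW Q).valuation (z : E) ≠ 0 := by simpa using hz0
    have h8 : 1 < (locW Q).valuation (z : E) := by
      rwa [inv_lt_one₀ (zero_lt_iff.2 h7)] at h5
    exact absurd hz (not_le.2 h8)
  have h3 : ∀ z : L, (locW Q).valuation (z : E) < 1 → P.valuation L z < 1 := by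
    intro z hz
    by_cases hz0 : z = 0
    · rw [hz0, map_zero]; exact zero_lt_one
    by_contra h4
    rw [not_lt] at h4
    have h5 : P.valuation L z⁻¹ ≤ 1 := by
      rw [map_inv₀]
      exact inv_le_one_of_one_le₀ h4
    have h6 := (h1 z⁻¹ h5).1
    have h7 : ((z⁻¹ : L) : E) = (z : E)⁻¹ := rfl
    rw [h7, map_inv₀] at h6
    have h8 : (locW Q).valuation (z : E) ≠ 0 := by simpa using hz0
    rw [inv_le_one₀ (zero_lt_iff.2 h8)] at h6
    exact absurd hz (not_lt.2 h6)
  refine ⟨P, fun z => ⟨h2 z, fun h => (h1 z h).1⟩, fun z => ⟨h3 z, fun h => (h1 z h.le).2 h⟩, ?_⟩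
  ext a
  rw [Ideal.mem_comap, hPI]
  have h4 : (((algebraMap (𝓞 k) (𝓞 L) a : 𝓞 L) : L) : E) = algebraMap k E (a : k) := rfl
  rw [h4, ← Pool.Agent.HG.val_int_lt v a, ← Pool.Agent.HG.OV_lt]
  have h5 := locW_algebraMap_eq_one Q hA (a := (a : k))
  have h6 : (locW Q).valuation (algebraMap k E (a : k)) ≤ 1 :=
    (locW_le_iff Q hA _).2 (Pool.Agent.HG.val_int v a)
  have h7 : (Pool.Agent.HG.OV v).valuation (a : k) ≤ 1 :=
    ((Pool.Agent.HG.OV v).valuation_le_one_iff _).2 (Pool.Agent.HG.val_int v a)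
  rw [lt_iff_le_and_ne, lt_iff_le_and_ne, Ne, h5]
  exact ⟨fun h => ⟨h7, h.2⟩, fun h => ⟨h6, h.2⟩⟩

theorem exists_ram (hA : Above Q) {p : ℕ} (hp : p.Prime) (hpQ : (locW Q).valuation (p : E) < 1)
    {n : ℕ} (hn : 0 < n) {c : k} (hc : IsRam n v c) {d : E} (hd : d ^ n = algebraMap k E c) :
    ∃ τ : E ≃ₐ[k] E, InI Q τ ∧ τ d ≠ d := by
  classical
  by_contra hcon
  push Not at hcon
  have hint : IsIntegral k d := Algebra.IsIntegral.isIntegral _
  have hfd0 : FiniteDimensional k k⟮d⟯ := IntermediateField.adjoin.finiteDimensional hint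
  let L : IntermediateField k E := normalClosure k k⟮d⟯ E
  have hfd : FiniteDimensional k L := inferInstance
  have hnl : Normal k L := inferInstance
  have hgal : IsGalois k L := ⟨⟩
  have hNF : NumberField L := NumberField.of_module_finite k L
  have hdL : d ∈ L := IntermediateField.le_normalClosure _ (IntermediateField.mem_adjoin_simple_self k d)
  obtain ⟨P, hP1, hP2, hP3⟩ := exists_below Q hA hp hpQ L
  have hsur := AlgEquiv.restrictNormalHom_surjective (F := k) (K₁ := L) E
  obtain ⟨z, hz⟩ := exists_val_of_inertia v P hP3 (d := (⟨d, hdL⟩ : L)) (by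
    intro σ hσ
    obtain ⟨σ0, hσ0⟩ := hsur σ
    have h0 : ∀ y : L, σ0 (y : E) = ((σ y : L) : E) := by
      intro y
      rw [← hσ0]
      exact (AlgEquiv.restrictNormalHom_apply L σ0 y).symm
    obtain ⟨τ, hτ, hτL⟩ := exists_inertia_lift Q L σ0 (by
      intro y hy hyW
      have h1 : P.valuation L (⟨y, hy⟩ : L) ≤ 1 :=
        (hP1 _).1 (((locW Q).valuation_le_one_iff _).2 hyW)
      obtain ⟨a, b, hb, hab⟩ := Pool.Agent.HG.exists_frac P h1
      have hbσ : σ • b ∉ P.asIdeal := by
        intro h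
        apply hb
        have h2 := P.asIdeal.sub_mem h (hσ b)
        rwa [sub_sub_cancel] at h2
      have hb1 : P.valuation L (b : L) = 1 := (Pool.Agent.HG.val_int_one P b).2 hb
      have hb2 : P.valuation L (σ (b : L)) = 1 := (Pool.Agent.HG.val_int_one P (σ • b)).2 hbσ
      have h3 : (b : L) * σ (b : L) * (σ ⟨y, hy⟩ - ⟨y, hy⟩) =
          ((b * (σ • a - a) - a * (σ • b - b) : 𝓞 L) : L) := by
        have h4 : σ (⟨y, hy⟩ : L) * σ (b : L) = σ (a : L) := by rw [← map_mul, hab]
        have h5 : ((b * (σ • a - a) - a * (σ • b - b) : 𝓞 L) : L) =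
            (b : L) * (σ (a : L) - a) - a * (σ (b : L) - b) := rfl
        rw [h5, ← h4, ← hab]
        ring
      have h6 : P.valuation L (σ ⟨y, hy⟩ - ⟨y, hy⟩) < 1 := by
        have h7 : P.valuation L ((b : L) * σ (b : L) * (σ ⟨y, hy⟩ - ⟨y, hy⟩)) < 1 := by
          rw [h3, Pool.Agent.HG.val_int_lt]
          exact P.asIdeal.sub_mem (P.asIdeal.mul_mem_left _ (hσ a)) (P.asIdeal.mul_mem_left _ (hσ b))
        rwa [map_mul, map_mul, hb1, hb2, one_mul, one_mul] at h7
      have h8 := (hP2 _).2 h6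
      have h9 : σ0 y - y = ((σ ⟨y, hy⟩ - ⟨y, hy⟩ : L) : E) := by
        have := h0 ⟨y, hy⟩
        change σ0 y = _ at this
        rw [this]
        rfl
      rw [h9]
      exact h8)
    apply Subtype.ext
    rw [← h0]
    change σ0 d = d
    rw [← hτL d hdL]
    exact hcon τ hτ)
  -- contradiction
  have hc0 : c ≠ 0 := by
    rintro rfl
    exact hc 0 (by rw [map_zero, zero_pow hn.ne'])
  have hd0 : d ≠ 0 := by
    rintro rfl
    apply hc0
    have : algebraMap k E c = 0 := by rw [← hd, zero_pow hn.ne']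
    simpa using this
  have hcL : algebraMap k L c = (⟨d, hdL⟩ : L) ^ n := Subtype.ext hd.symm
  have hz0 : z ≠ 0 := by
    rintro rfl
    rw [map_zero, map_zero] at hz
    have h1 := (Valuation.zero_iff _).1 hz.symm
    exact hd0 (congrArg Subtype.val h1)
  have h1 : P.valuation L (algebraMap k L (c / z ^ n)) = 1 := by
    have h2 : P.valuation L (⟨d, hdL⟩ : L) ≠ 0 :=
      (Valuation.ne_zero_iff _).2 (fun h => hd0 (congrArg Subtype.val h))
    rw [map_div₀, map_pow, hcL, map_div₀, map_pow, map_pow, hz]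
    exact div_self (pow_ne_zero n h2)
  have key : ∀ x : k, P.valuation L (algebraMap k L x) ≤ 1 → v.valuation k x ≤ 1 := by
    intro x hx
    have h2 := (hP1 (algebraMap k L x)).2 hx
    exact (locW_le_iff Q hA x).1 h2
  have h2 := key _ h1.le
  have h3 : v.valuation k (c / z ^ n)⁻¹ ≤ 1 := by
    apply key
    rw [map_inv₀, map_inv₀, h1, inv_one]
  have hvz : v.valuation k (z ^ n) ≠ 0 := by simpa using fun h => absurd h hz0
  have hvc : v.valuation k c ≠ 0 := by simpa using hc0
  apply hc z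
  rw [← map_pow]
  apply le_antisymm
  · rwa [map_div₀, div_le_one₀ (zero_lt_iff.2 hvz)] at h2
  · rwa [inv_div, map_div₀, div_le_one₀ (zero_lt_iff.2 hvc)] at h3

end Below

/-- **Block FR.** -/
theorem fr : StmtFR := by
  intro k E _ _ _ _ _ _ v
  have hcz : CharZero E := charZero_of_injective_algebraMap (algebraMap k E).injective
  have hclo : IsAlgClosure k E := ⟨inferInstance, inferInstance⟩
  have hnor : Normal k E := IsAlgClosure.normal k E
  have hgal : IsGalois k E := ⟨⟩
  obtain ⟨p, hp, hpv⟩ := Pool.Agent.HG.exists_prime v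
  have hpf : Fact p.Prime := ⟨hp⟩
  obtain ⟨f, hf, hnm⟩ := Pool.Agent.HG.nm_pow v hp hpv
  have hpO : (Pool.Agent.HG.OV v).valuation (p : k) < 1 := by
    rw [Pool.Agent.HG.OV_lt]
    exact_mod_cast (Pool.Agent.HG.val_int_lt v (p : 𝓞 k)).2 hpv
  obtain ⟨Q, hQ, γ, hA, hγD, hγ⟩ := exists_frob (S := k) (C := E) (Pool.Agent.HG.OV v) p f hpO
    (fun z hz => by
      rw [Pool.Agent.HG.OV_lt, ← hnm]
      exact Pool.Agent.HG.pow_nm_sub' v hz)
  have hpQ : (locW Q).valuation (p : E) < 1 := by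
    have h1 := locW_algebraMap_lt Q hA hpO
    rwa [map_natCast] at h1
  refine ⟨locW Q, γ, p, f, ?_, hnm, ?_, ?_, ?_⟩
  · intro x
    rw [← (locW Q).valuation_le_one_iff]
    exact locW_le_iff Q hA x
  · refine ⟨hp, Nat.pos_of_ne_zero hf, fun a c ha hc => rank_locW Q hA ha hc, hpQ,
      fun z => stab_locW Q hγD z, ?_, ?_⟩
    · intro z hz
      exact (hγ z (((locW Q).valuation_le_one_iff z).2 hz)).2.2
    · intro z
      obtain ⟨m, hm, hmz⟩ := exists_autpow_fix γ (Algebra.IsAlgebraic.isAlgebraic (R := k) z)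
      refine ⟨m, hm, ?_⟩
      have h1 : ∀ (j : ℕ) (y : E), (γ.toRingEquiv^[j]) y = (γ ^ j) y := by
        intro j
        induction j with
        | zero => intro y; rfl
        | succ j ih =>
          intro y
          rw [Function.iterate_succ_apply', ih, pow_succ', AlgEquiv.mul_apply]
          rfl
      rw [h1]
      exact hmz
  · intro n c hn hc d hd
    obtain ⟨τ, hτ, hτd⟩ := exists_ram Q hA hp hpQ hn hc hd
    exact ⟨τ, inert_of_inI Q hτ, hτd⟩
  · intro g τ hg hτ L _ m hm
    have hgD := inD_of_stab Q hg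
    have hτI := inI_of_inert Q hτ
    have hfd : FiniteDimensional k (normalClosure k L E) := inferInstance
    have hnl : Normal k (normalClosure k L E) := inferInstance
    obtain ⟨a, j, h1, h2⟩ := tame_relation_wild Q (Or.inr hp)
      (fun n _ hn => unit_of_coprime Q hpQ hn) hgD hτI (normalClosure k L E) m hm
    exact ⟨a, j, h1, fun z hz => h2 z (IntermediateField.le_normalClosure L hz)⟩

end

end Pool.Agent.LN
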